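import Mathlib

/-!
# Project FD: totally isotropic subspaces over `F_2`
-/

set_option autoImplicit false

namespace Pool.Agent.L7h29.FD

open Module

/-- a totally isotropic subspace of a nondegenerate space of dimension `2 n` over `F_2` -/
theorem iso {V : Type} [AddCommGroup V] [Module (ZMod 2) V] [FiniteDimensional (ZMod 2) V]
    (B : V →ₗ[ZMod 2] V →ₗ[ZMod 2] ZMod 2) (hs : ∀ x y, B x y = B y x)
    (hnd : ∀ x, (∀ y, B x y = 0) → x = 0) (n : ℕ) (hn : finrank (ZMod 2) V = 2 * n)
    (D : Submodule (ZMod 2) V) (hD : ∀ t ∈ D, ∀ t' ∈ D, B t t' = 0) :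
    Nat.card D ≤ 2 ^ n ∧ (2 ^ n ≤ Nat.card D → ∀ x, (∀ t ∈ D, B t x = 0) → x ∈ D) := by
  have hB : LinearMap.BilinForm.Nondegenerate B := by
    refine ⟨hnd, fun y hy => hnd y fun x => ?_⟩
    rw [hs]; exact hy x
  have hle : D ≤ LinearMap.BilinForm.orthogonal B D := by
    intro t ht
    rw [LinearMap.BilinForm.mem_orthogonal_iff]
    intro t' ht'
    exact hD t' ht' t ht
  have hf := LinearMap.BilinForm.finrank_orthogonal hB D
  have hle' := Submodule.finrank_mono hle
  have hDV := Submodule.finrank_le D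
  have hcard : Nat.card D = 2 ^ finrank (ZMod 2) D := by
    rw [Module.natCard_eq_pow_finrank (K := ZMod 2), Nat.card_zmod]
  have h1 : finrank (ZMod 2) D ≤ n := by omega
  rw [hcard]
  refine ⟨Nat.pow_le_pow_right (by norm_num) h1, fun h x hx => ?_⟩
  have h2 : n ≤ finrank (ZMod 2) D := (Nat.pow_le_pow_iff_right (by norm_num)).1 h
  have h3 : D = LinearMap.BilinForm.orthogonal B D :=
    Submodule.eq_of_le_of_finrank_eq hle (by omega)
  rw [h3, LinearMap.BilinForm.mem_orthogonal_iff]
  intro t ht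
  exact hx t ht

end Pool.Agent.L7h29.FD
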