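import Pool.Agent.L7h19.FD.Stm
import Pool.Agent.L7h19.IK.Comb
import Pool.Agent.L7h29.FD.Iso

/-!
# Project FD, part CTD: the combinatorial lemma for the tuples `TK`
-/

set_option autoImplicit false
set_option linter.unusedSectionVars false
set_option linter.unusedVariables false

namespace Pool.Agent.L7h29.FD

open Finset Pool.Agent.L7h19.IS Pool.Agent.L7h19.FD Module
open Pool.Agent.L7h19.IK (zm2)

/-- the space of the pairs of vectors -/
abbrev MM (k : ℕ) : Type := (Fin k → V2) × (Fin k → V2)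

lemma om2_add_left : ∀ v v' w : V2, om2 (v + v') w = om2 v w + om2 v' w := by decide
lemma om2_add_right : ∀ v w w' : V2, om2 v (w + w') = om2 v w + om2 v w' := by decide
lemma om2_smul_left : ∀ (a : ZMod 2) (v w : V2), om2 (a • v) w = a * om2 v w := by decide
lemma om2_smul_right : ∀ (a : ZMod 2) (v w : V2), om2 v (a • w) = a * om2 v w := by decide
lemma om2_zero_left (w : V2) : om2 0 w = 0 := by revert w; decide
lemma om2_comm : ∀ v w : V2, om2 v w = om2 w v := by decide
lemma om2_line : ∀ (c : Fin 3) (w : V2), om2 w (dc c.castSucc) = 0 → Ln c.castSucc w := by decide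
lemma om2_dc : ∀ (c c' : Fin 3), c ≠ c' → om2 (dc c'.castSucc) (dc c.castSucc) = 1 := by decide
lemma dc_ne : ∀ c : Fin 3, dc c.castSucc ≠ 0 := by decide
lemma Ln_cases : ∀ (c : Fin 3) (w : V2), Ln c.castSucc w → w ≠ 0 → w = dc c.castSucc := by decide
lemma Ln_sub : ∀ (c : Fin 3) (v w : V2), Ln c.castSucc v → Ln c.castSucc w →
    Ln c.castSucc (v - w) := by decide
lemma Ln_zero (c : Fin 4) : Ln c 0 := Or.inr (Or.inl rfl)
lemma Ln_add : ∀ (c : Fin 3) (v w : V2), Ln c.castSucc v → Ln c.castSucc w →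
    Ln c.castSucc (v + w) := by decide
lemma Ln_smul : ∀ (c : Fin 3) (a : ZMod 2) (v : V2), Ln c.castSucc v →
    Ln c.castSucc (a • v) := by decide

lemma om2_sum_left {k : ℕ} (f : Fin k → V2) (w : V2) : om2 (∑ a, f a) w = ∑ a, om2 (f a) w := by
  have h : ∀ s : Finset (Fin k), om2 (∑ a ∈ s, f a) w = ∑ a ∈ s, om2 (f a) w := by
    intro s
    induction s using Finset.induction_on with
    | empty => simp [om2_zero_left]
    | insert a s ha ih => rw [sum_insert ha, sum_insert ha, om2_add_left, ih]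
  exact h univ

lemma Ln_sum {k : ℕ} (c : Fin 3) (f : Fin k → V2) (h : ∀ a, Ln c.castSucc (f a)) :
    Ln c.castSucc (∑ a, f a) := by
  have h1 : ∀ s : Finset (Fin k), Ln c.castSucc (∑ a ∈ s, f a) := by
    intro s
    induction s using Finset.induction_on with
    | empty => exact Ln_zero _
    | insert a s ha ih => rw [sum_insert ha]; exact Ln_add c _ _ (h a) ih
  exact h1 univ

/-- the alternating form -/
def BB (k : ℕ) : MM k →ₗ[ZMod 2] MM k →ₗ[ZMod 2] ZMod 2 :=
  LinearMap.mk₂ (ZMod 2) (fun x y => ∑ a, om2 (x.1 a) (y.2 a) + ∑ a, om2 (y.1 a) (x.2 a))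
    (fun x x' y => by
      simp only [Prod.fst_add, Prod.snd_add, Pi.add_apply, om2_add_left, om2_add_right,
        sum_add_distrib]
      ring)
    (fun t x y => by
      simp only [Prod.smul_fst, Prod.smul_snd, Pi.smul_apply, om2_smul_left, om2_smul_right,
        ← mul_sum, smul_eq_mul]
      ring)
    (fun x y y' => by
      simp only [Prod.fst_add, Prod.snd_add, Pi.add_apply, om2_add_left, om2_add_right,
        sum_add_distrib]
      ring)
    (fun t x y => by
      simp only [Prod.smul_fst, Prod.smul_snd, Pi.smul_apply, om2_smul_left, om2_smul_right,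
        ← mul_sum, smul_eq_mul]
      ring)

lemma BB_apply {k : ℕ} (x y : MM k) :
    BB k x y = ∑ a, om2 (x.1 a) (y.2 a) + ∑ a, om2 (y.1 a) (x.2 a) := rfl

lemma BB_symm {k : ℕ} (x y : MM k) : BB k x y = BB k y x := by
  rw [BB_apply, BB_apply, add_comm]

lemma om2_nd : ∀ v : V2, om2 v (0, 1) = 0 → om2 v (1, 0) = 0 → v = 0 := by decide

lemma BB_nd {k : ℕ} (x : MM k) (h : ∀ y, BB k x y = 0) : x = 0 := by
  classical
  have h1 : ∀ (a : Fin k) (w : V2), om2 (x.1 a) w = 0 := by
    intro a w
    have := h (0, Pi.single a w)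
    rw [BB_apply] at this
    simp only [Pi.zero_apply, om2_zero_left, sum_const_zero, add_zero] at this
    rw [sum_eq_single a] at this
    · simpa using this
    · intro b _ hb
      rw [Pi.single_eq_of_ne hb, om2_comm, om2_zero_left]
    · intro h'
      exact absurd (mem_univ a) h'
  have h2 : ∀ (a : Fin k) (w : V2), om2 (x.2 a) w = 0 := by
    intro a w
    have := h (Pi.single a w, 0)
    rw [BB_apply] at this
    have e1 : ∀ b, om2 (x.1 b) ((0 : Fin k → V2) b) = 0 := fun b => by
      rw [Pi.zero_apply, om2_comm, om2_zero_left]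
    simp only [e1, sum_const_zero, zero_add] at this
    rw [sum_eq_single a] at this
    · rw [om2_comm]; simpa using this
    · intro b _ hb
      rw [Pi.single_eq_of_ne hb, om2_zero_left]
    · intro h'
      exact absurd (mem_univ a) h'
  refine Prod.ext (funext fun a => ?_) (funext fun a => ?_)
  · exact om2_nd _ (h1 a _) (h1 a _)
  · exact om2_nd _ (h2 a _) (h2 a _)

lemma finrank_MM (k : ℕ) : finrank (ZMod 2) (MM k) = 2 * (2 * k) := by
  rw [finrank_prod, finrank_pi_fintype]
  simp [finrank_prod]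
  ring

/-- the vectors with first component zero in the line of `c` -/
def UU {k : ℕ} (c : Fin 3) (u : Fin k → ZMod 2) : MM k := (0, fun a => u a • dc c.castSucc)

lemma BB_UU {k : ℕ} (c : Fin 3) (u : Fin k → ZMod 2) (x : MM k) :
    BB k x (UU c u) = om2 (∑ a, u a • x.1 a) (dc c.castSucc) := by
  rw [BB_apply]
  unfold UU
  simp only [Pi.zero_apply, om2_zero_left, sum_const_zero, add_zero, om2_smul_right]
  rw [om2_sum_left]
  simp only [om2_smul_left]

/-- the difference of two vectors of the line with the same first component -/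
lemma diff_UU {k : ℕ} (c : Fin 3) (x y : MM k) (hx : ∀ a, Ln c.castSucc (x.2 a))
    (hy : ∀ a, Ln c.castSucc (y.2 a)) (h : x.1 = y.1) :
    x - y = UU c (fun a => if (x - y).2 a = 0 then 0 else 1) := by
  refine Prod.ext ?_ (funext fun a => ?_)
  · rw [Prod.fst_sub, h, sub_self]; rfl
  · show (x - y).2 a = (if (x - y).2 a = 0 then (0 : ZMod 2) else 1) • dc c.castSucc
    split_ifs with h0
    · rw [zero_smul, h0]
    · rw [one_smul]
      exact Ln_cases c _ (Ln_sub c _ _ (hx a) (hy a)) h0

lemma UU_eq_zero {k : ℕ} (c : Fin 3) (u : Fin k → ZMod 2) (h : u = 0) : UU c u = 0 := by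
  subst h
  unfold UU
  refine Prod.ext rfl (funext fun a => ?_)
  simp

variable {J : Type} [Fintype J] [DecidableEq J]

lemma LT_symm {cls : J → Fin 4} {k : ℕ} {i l : LabT cls k} :
    (LT cls k i l = LT cls k l i) ↔ BB k i.1.2 l.1.2 = 0 := by
  rw [BB_apply]
  unfold Pool.Agent.L7h19.FD.LT
  rw [zm2]

theorem s_CTD : S_CTD := by
  classical
  intro J _ _ cls k U S hUS hU hQ
  set W := UL (LT cls k) U S with hW
  have hWm : ∀ e, e ∈ W ↔ e ∈ U ∧ ∀ l ∈ S, LT cls k e l = LT cls k l e := fun e => by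
    rw [hW]
    unfold UL
    simp only [mem_filter]
  have hWU : ∀ e ∈ W, e ∈ U := fun e he => ((hWm e).1 he).1
  have hWH : ∀ e ∈ W, ∀ s ∈ U ∪ S, BB k e.1.2 s.1.2 = 0 := by
    intro e he s hs
    rw [← LT_symm]
    rcases mem_union.1 hs with h | h
    · exact hU e (hWU e he) s h
    · exact ((hWm e).1 he).2 s h
  -- the spaces spanned by the vectors of a class
  set D : Fin 4 → Submodule (ZMod 2) (MM k) := fun c =>
    Submodule.span (ZMod 2) {t | ∃ e ∈ W, cls e.1.1 = c ∧ e.1.2 = t} with hD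
  have hWD : ∀ e ∈ W, e.1.2 ∈ D (cls e.1.1) := fun e he =>
    Submodule.subset_span ⟨e, he, rfl, rfl⟩
  have hDH : ∀ c, ∀ t ∈ D c, ∀ s ∈ U ∪ S, BB k t s.1.2 = 0 := by
    intro c t ht s hs
    have h1 : D c ≤ LinearMap.ker (BB k s.1.2) := by
      rw [hD]
      dsimp only
      rw [Submodule.span_le]
      rintro t ⟨e, he, hec, rfl⟩
      show BB k s.1.2 e.1.2 = 0
      rw [BB_symm]
      exact hWH e he s hs
    have h2 : BB k s.1.2 t = 0 := h1 ht
    rw [BB_symm]
    exact h2
  -- key: no vectors `UU c u`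
  have hkey : ∀ (c : Fin 3) (u : Fin k → ZMod 2), (∀ s ∈ U ∪ S, BB k (UU c u) s.1.2 = 0) →
      u = 0 := by
    intro c u h
    by_contra hne
    obtain ⟨i, hi, hni⟩ := hQ u hne c
    apply hni
    apply om2_line
    rw [← BB_UU, BB_symm]
    exact h i hi
  have hLn1 : ∀ (i : LabT cls k) (a : Fin k), Ln (cls i.1.1) (i.1.2.1 a) := fun i a => i.2.1 a
  have hLn2 : ∀ (i : LabT cls k) (a : Fin k), Ln (cls i.1.1) (i.1.2.2 a) := fun i a => i.2.2.1 a
  -- the fibres
  set c : J → Finset (LabT cls k) := fun j => W.filter (fun i => i.1.1 = j) with hc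
  have hcm : ∀ j i, i ∈ c j ↔ i ∈ W ∧ i.1.1 = j := fun j i => by
    rw [hc]
    simp
  have hinj0 : ∀ j, ∀ i ∈ c j, ∀ i' ∈ c j, i.1.2 = i'.1.2 → i = i' := by
    intro j i hi i' hi' h
    apply Subtype.ext
    refine Prod.ext ?_ h
    rw [((hcm j i).1 hi).2, ((hcm j i').1 hi').2]
  have hcV : (univ : Finset (Fin k → ZMod 2)).card = 2 ^ k := by
    rw [card_univ]
    simp [ZMod.card]
  -- the classes `0, 1, 2`
  have hinj1 : ∀ (j : J) (d : Fin 3), cls j = d.castSucc → ∀ i ∈ c j, ∀ i' : LabT cls k,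
      i'.1.1 = j → i'.1.2 ∈ D (cls j) → i.1.2.1 = i'.1.2.1 → i.1.2 = i'.1.2 := by
    intro j d hd i hi i' hi' hD' h
    obtain ⟨hiW, hij⟩ := (hcm j i).1 hi
    have h1 := diff_UU d i.1.2 i'.1.2 (fun a => by have := hLn2 i a; rwa [hij, hd] at this)
      (fun a => by have := hLn2 i' a; rwa [hi', hd] at this) h
    have h2 : i.1.2 - i'.1.2 ∈ D (cls j) := by
      apply (D (cls j)).sub_mem _ hD'
      have := hWD i hiW
      rwa [hij] at this
    have h3 := hkey d _ (fun s hs => by rw [← h1]; exact hDH _ _ h2 s hs)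
    rw [h3] at h1
    rw [UU_eq_zero d 0 rfl] at h1
    exact sub_eq_zero.1 h1
  have hco : ∀ (j : J) (d : Fin 3), cls j = d.castSucc → ∀ (i i' : LabT cls k), i.1.1 = j →
      i'.1.1 = j → (fun a => if i.1.2.1 a = 0 then (0 : ZMod 2) else 1) =
        (fun a => if i'.1.2.1 a = 0 then (0 : ZMod 2) else 1) → i.1.2.1 = i'.1.2.1 := by
    intro j d hd i i' hi hi' h
    funext a
    have h1 := congrFun h a
    have h2 := hLn1 i a
    have h3 := hLn1 i' a
    rw [hi, hd] at h2
    rw [hi', hd] at h3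
    by_cases h4 : i.1.2.1 a = 0
    · by_cases h5 : i'.1.2.1 a = 0
      · rw [h4, h5]
      · simp only [h4, h5, if_true, if_false] at h1
        exact absurd h1 (by decide)
    · by_cases h5 : i'.1.2.1 a = 0
      · simp only [h4, h5, if_true, if_false] at h1
        exact absurd h1 (by decide)
      · rw [Ln_cases d _ h2 h4, Ln_cases d _ h3 h5]
  have hinj2 : ∀ (j : J) (d : Fin 3), cls j = d.castSucc →
      Set.InjOn (fun (i : LabT cls k) (a : Fin k) => if i.1.2.1 a = 0 then (0 : ZMod 2) else 1)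
        (c j : Set (LabT cls k)) := by
    intro j d hd i hi i' hi' h
    rw [mem_coe] at hi hi'
    obtain ⟨hiW, hij⟩ := (hcm j i).1 hi
    obtain ⟨hiW', hij'⟩ := (hcm j i').1 hi'
    apply hinj0 j i hi i' hi'
    apply hinj1 j d hd i hi i' hij' (by have := hWD i' hiW'; rwa [hij'] at this)
    exact hco j d hd i i' hij hij' h
  have hcard2 : ∀ (j : J) (d : Fin 3), cls j = d.castSucc → (c j).card ≤ 2 ^ k := by
    intro j d hd
    rw [← hcV]
    exact card_le_card_of_injOn _ (fun _ _ => mem_coe.2 (mem_univ _)) (hinj2 j d hd)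
  have hsurj : ∀ (j : J) (d : Fin 3), cls j = d.castSucc → (c j).card = 2 ^ k →
      ∀ x : Fin k → ZMod 2, ∃ i ∈ c j, (fun a => if i.1.2.1 a = 0 then (0 : ZMod 2) else 1) = x := by
    intro j d hd hj x
    have h1 : (c j).image (fun (i : LabT cls k) (a : Fin k) =>
        if i.1.2.1 a = 0 then (0 : ZMod 2) else 1) = univ := by
      apply eq_univ_of_card
      rw [card_image_of_injOn (hinj2 j d hd), hj]
      simp [ZMod.card]
    have h2 : x ∈ (c j).image (fun (i : LabT cls k) (a : Fin k) =>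
        if i.1.2.1 a = 0 then (0 : ZMod 2) else 1) := by rw [h1]; exact mem_univ _
    obtain ⟨t, ht, h3⟩ := mem_image.1 h2
    exact ⟨t, ht, h3⟩
  -- the class `3`
  have hD3 : ∀ t ∈ D 3, ∀ t' ∈ D 3, BB k t t' = 0 := by
    intro t ht t' ht'
    have h1 : D 3 ≤ LinearMap.ker (BB k t) := by
      rw [hD]
      dsimp only
      rw [Submodule.span_le]
      rintro t' ⟨e, he, hec, rfl⟩
      exact hDH 3 t ht e (mem_union_left _ (hWU e he))
    exact h1 ht'
  obtain ⟨hiso1, hiso2⟩ := iso (BB k) BB_symm BB_nd (2 * k) (finrank_MM k) (D 3) hD3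
  have h4k : (2 : ℕ) ^ (2 * k) = 4 ^ k := by rw [pow_mul]; norm_num
  rw [h4k] at hiso1 hiso2
  set Df : Finset (MM k) := univ.filter (fun t => t ∈ D 3) with hDf
  have hDfc : Df.card = Nat.card (D 3) := by
    rw [hDf, ← Fintype.card_subtype, Nat.card_eq_fintype_card]
  have himg3 : ∀ j, cls j = 3 → (c j).image (fun i => i.1.2) ⊆ Df := by
    intro j hj t ht
    obtain ⟨i, hi, rfl⟩ := mem_image.1 ht
    obtain ⟨hiW, hij⟩ := (hcm j i).1 hi
    rw [hDf, mem_filter]
    refine ⟨mem_univ _, ?_⟩
    have := hWD i hiW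
    rwa [hij, hj] at this
  have hci : ∀ j, ((c j).image (fun i => i.1.2)).card = (c j).card := fun j =>
    card_image_of_injOn fun i hi i' hi' h => hinj0 j i (mem_coe.1 hi) i' (mem_coe.1 hi') h
  have hcard3 : ∀ j, cls j = 3 → (c j).card ≤ 4 ^ k := by
    intro j hj
    have h1 := card_le_card (himg3 j hj)
    rw [hci, hDfc] at h1
    exact h1.trans hiso1
  -- the weights
  set ω : J → ℝ := fun j => if cls j = 3 then 1 / 4 ^ k else 1 / 2 ^ k with hω
  have hsum : ∑ i ∈ W, wT cls k i = ∑ j, ((c j).card : ℝ) * ω j := by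
    rw [← sum_fiberwise_of_maps_to (s := W) (t := univ) (g := fun i => i.1.1)
      (fun _ _ => mem_univ _)]
    refine sum_congr rfl fun j _ => ?_
    rw [← nsmul_eq_mul, ← sum_const]
    refine sum_congr rfl fun i hi => ?_
    have h1 : i.1.1 = j := (mem_filter.1 hi).2
    unfold wT
    rw [hω, h1]
  have hcases : ∀ j : J, cls j = 3 ∨ ∃ d : Fin 3, cls j = d.castSucc := by
    intro j
    have : ∀ x : Fin 4, x = 3 ∨ ∃ d : Fin 3, x = d.castSucc := by decide
    exact this _
  have hne3 : ∀ d : Fin 3, (d.castSucc : Fin 4) ≠ 3 := by decide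
  have h4p : (0 : ℝ) < 4 ^ k := by positivity
  have h2p : (0 : ℝ) < 2 ^ k := by positivity
  have hle : ∀ j, ((c j).card : ℝ) * ω j ≤ 1 := by
    intro j
    rcases hcases j with h | ⟨d, h⟩
    · rw [hω]
      simp only [h, if_true]
      rw [mul_one_div, div_le_one h4p]
      exact_mod_cast hcard3 j h
    · rw [hω]
      simp only [h, hne3 d, if_false]
      rw [mul_one_div, div_le_one h2p]
      exact_mod_cast hcard2 j d h
  have hJ : (Fintype.card J : ℝ) = ∑ _j : J, (1 : ℝ) := by
    rw [sum_const, card_univ, nsmul_eq_mul, mul_one]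
  rw [hsum, hJ]
  refine ⟨sum_le_sum fun j _ => hle j, ?_⟩
  rintro ⟨s, hs⟩
  have hsH : s ∈ U ∪ S := mem_union_right _ hs
  by_contra hcon
  have hone : ∀ j, ((c j).card : ℝ) * ω j = 1 := by
    intro j
    by_contra hne
    apply hcon
    exact sum_lt_sum (fun j _ => hle j) ⟨j, mem_univ _, lt_of_le_of_ne (hle j) hne⟩
  have hfull3 : ∀ j, cls j = 3 → (c j).card = 4 ^ k := by
    intro j hj
    have h1 := hone j
    rw [hω] at h1
    simp only [hj, if_true] at h1
    rw [mul_one_div, div_eq_one_iff_eq h4p.ne'] at h1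
    exact_mod_cast h1
  have hfull2 : ∀ (j : J) (d : Fin 3), cls j = d.castSucc → (c j).card = 2 ^ k := by
    intro j d hj
    have h1 := hone j
    rw [hω] at h1
    simp only [hj, hne3 d, if_false] at h1
    rw [mul_one_div, div_eq_one_iff_eq h2p.ne'] at h1
    exact_mod_cast h1
  have hDfull : ∀ j, cls j = 3 → 4 ^ k ≤ Nat.card (D 3) := by
    intro j hj
    rw [← hDfc, ← hfull3 j hj, ← hci]
    exact card_le_card (himg3 j hj)
  have hsW : s ∉ W := fun h => disjoint_left.1 hUS (hWU s h) hs
  rcases hcases s.1.1 with h3 | ⟨d, hd⟩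
  · -- `s` is of class `3`
    have h1 : s.1.2 ∈ D 3 := hiso2 (hDfull _ h3) _ fun t ht => hDH 3 t ht s hsH
    have h2 : (c s.1.1).image (fun i => i.1.2) = Df := by
      apply eq_of_subset_of_card_le (himg3 _ h3)
      rw [hci, hfull3 _ h3, hDfc]
      exact hiso1
    have h4 : s.1.2 ∈ (c s.1.1).image (fun i => i.1.2) := by
      rw [h2, hDf, mem_filter]
      exact ⟨mem_univ _, h1⟩
    obtain ⟨i, hi, his⟩ := mem_image.1 h4
    obtain ⟨hiW, hij⟩ := (hcm _ i).1 hi
    have h5 : i = s := Subtype.ext (Prod.ext hij his)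
    rw [h5] at hiW
    exact hsW hiW
  · -- `s` is of class `d`
    obtain ⟨i, hi, hix⟩ := hsurj s.1.1 d hd (hfull2 _ d hd)
      (fun a => if s.1.2.1 a = 0 then (0 : ZMod 2) else 1)
    obtain ⟨hiW, hij⟩ := (hcm _ i).1 hi
    have h1 : i.1.2.1 = s.1.2.1 := hco s.1.1 d hd i s hij rfl hix
    have h2 := diff_UU d s.1.2 i.1.2 (fun a => by have := hLn2 s a; rwa [hd] at this)
      (fun a => by have := hLn2 i a; rwa [hij, hd] at this) h1.symm
    set u : Fin k → ZMod 2 := fun a => if (s.1.2 - i.1.2).2 a = 0 then 0 else 1 with hu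
    -- `W` is orthogonal to `UU d u`
    have hWu : ∀ e ∈ W, BB k e.1.2 (UU d u) = 0 := by
      intro e he
      rw [← h2, map_sub, hWH e he s hsH, hWH e he i (mem_union_left _ (hWU i hiW)), sub_zero]
    have hu0 : u = 0 := by
      by_contra hne
      obtain ⟨l, hl, hnl⟩ := hQ u hne d
      have hcl : cls l.1.1 ≠ d.castSucc := by
        intro h
        apply hnl
        apply Ln_sum
        intro a
        apply Ln_smul
        have := hLn1 l a
        rwa [h] at this
      rcases hcases l.1.1 with h3 | ⟨d', hd'⟩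
      · -- class `3` occurs
        have h4 : UU d u ∈ D 3 := by
          apply hiso2 (hDfull _ h3)
          intro t ht
          have h5 : D 3 ≤ LinearMap.ker (BB k (UU d u)) := by
            rw [hD]
            dsimp only
            rw [Submodule.span_le]
            rintro t' ⟨e, he, hec, rfl⟩
            show BB k (UU d u) e.1.2 = 0
            rw [BB_symm]
            exact hWu e he
          have h6 : BB k (UU d u) t = 0 := h5 ht
          rw [BB_symm]
          exact h6
        exact hne (hkey d u fun s' hs' => hDH 3 _ h4 s' hs')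
      · -- another class occurs
        have hdd : d ≠ d' := by
          rintro rfl
          exact hcl hd'
        apply hne
        rw [← dotProduct_eq_zero_iff]
        intro x
        obtain ⟨e, he, hex⟩ := hsurj l.1.1 d' hd' (hfull2 _ d' hd') x
        obtain ⟨heW, hej⟩ := (hcm _ e).1 he
        have h7 := hWu e heW
        rw [BB_UU] at h7
        have h8 : ∀ a, e.1.2.1 a = x a • dc d'.castSucc := by
          intro a
          have h9 : (if e.1.2.1 a = 0 then (0 : ZMod 2) else 1) = x a := congrFun hex a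
          rw [← h9]
          split_ifs with h10
          · rw [zero_smul, h10]
          · rw [one_smul]
            apply Ln_cases d' _ _ h10
            have := hLn1 e a
            rwa [hej, hd'] at this
        have h11 : ∑ a, u a • e.1.2.1 a = (u ⬝ᵥ x) • dc d'.castSucc := by
          unfold dotProduct
          rw [sum_smul]
          refine sum_congr rfl fun a _ => ?_
          rw [h8 a, smul_smul]
        rw [h11, om2_smul_left, om2_dc d d' hdd, mul_one] at h7
        exact h7
    rw [hu0, UU_eq_zero d 0 rfl] at h2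
    have h5 : s = i := Subtype.ext (Prod.ext hij.symm (sub_eq_zero.1 h2))
    rw [← h5] at hiW
    exact hsW hiW

end Pool.Agent.L7h29.FD
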