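import Pool.Agent.L7h19.FD.Stm
import Pool.Agent.L7h19.IK.Comb
import Pool.Agent.L7h29.FD.Iso

/-!
# Project FD, part CFD: the combinatorial lemma for `FK`
-/

set_option autoImplicit false
set_option linter.unusedSectionVars false
set_option linter.unusedVariables false

namespace Pool.Agent.L7h29.FD

open Finset Pool.Agent.L7h19.IS Pool.Agent.L7h19.FD Module
open Pool.Agent.L7h19.IK (zm2)

/-- the space of the pairs of vectors -/
abbrev MF (r : ℕ) : Type := (Fin r → ZMod 2) × (Fin r → ZMod 2)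

/-- the alternating form -/
def GG (r : ℕ) : MF r →ₗ[ZMod 2] MF r →ₗ[ZMod 2] ZMod 2 :=
  LinearMap.mk₂ (ZMod 2) (fun x y => x.1 ⬝ᵥ y.2 + x.2 ⬝ᵥ y.1)
    (fun x x' y => by
      simp only [Prod.fst_add, Prod.snd_add, add_dotProduct]
      ring)
    (fun t x y => by
      simp only [Prod.smul_fst, Prod.smul_snd, smul_dotProduct, smul_eq_mul]
      ring)
    (fun x y y' => by
      simp only [Prod.fst_add, Prod.snd_add, dotProduct_add]
      ring)
    (fun t x y => by
      simp only [Prod.smul_fst, Prod.smul_snd, dotProduct_smul, smul_eq_mul]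
      ring)

lemma GG_apply {r : ℕ} (x y : MF r) : GG r x y = x.1 ⬝ᵥ y.2 + x.2 ⬝ᵥ y.1 := rfl

lemma GG_symm {r : ℕ} (x y : MF r) : GG r x y = GG r y x := by
  rw [GG_apply, GG_apply, dotProduct_comm x.1, dotProduct_comm x.2, add_comm]

lemma GG_nd {r : ℕ} (x : MF r) (h : ∀ y, GG r x y = 0) : x = 0 := by
  have h1 : x.1 = 0 := by
    rw [← dotProduct_eq_zero_iff]
    intro w
    have := h (0, w)
    rw [GG_apply] at this
    simpa using this
  have h2 : x.2 = 0 := by
    rw [← dotProduct_eq_zero_iff]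
    intro w
    have := h (w, 0)
    rw [GG_apply] at this
    simpa using this
  exact Prod.ext h1 h2

lemma finrank_MF (r : ℕ) : finrank (ZMod 2) (MF r) = 2 * r := by
  rw [finrank_prod]
  simp
  ring

lemma LF_symm' {J : Type} [Fintype J] [DecidableEq J] {cls : J → Fin 4} {c : Fin 3} {r : ℕ}
    {i l : LabF cls c r} :
    (LF cls c r i l = LF cls c r l i) ↔ GG r i.1.2.1 l.1.2.1 = 0 := by
  rw [GG_apply]
  unfold LF
  rw [zm2, dotProduct_comm i.1.2.1.2 l.1.2.1.1]

lemma castSucc_ne3 : ∀ c : Fin 3, (c.castSucc : Fin 4) ≠ 3 := by decide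

/-- the weights as functions of the vector -/
noncomputable def gg {J : Type} (cls : J → Fin 4) (c : Fin 3) (μ : J → ℝ) (a b r : ℕ) (j : J)
    (t : MF r) : ℝ :=
  (if cls j = c.castSucc ∨ cls j = 3 then
    ((if t.1 = 0 then 1 - μ j else 0) + μ j / 2 ^ a) else μ j + (1 - μ j)) *
    (if cls j = c.castSucc then 1 else 1 / 2 ^ b) / 2

/-- the total weight of the fibre -/
noncomputable def pj {J : Type} (cls : J → Fin 4) (c : Fin 3) (μ : J → ℝ) (a b n n1 n2 : ℕ)
    (j : J) : ℝ :=
  if cls j = c.castSucc then (1 - μ j) + n1 * (μ j / 2 ^ a) else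
    if cls j = 3 then (n2 * (1 - μ j) + n * (μ j / 2 ^ a)) * (1 / 2 ^ b) else n2 * (1 / 2 ^ b)

/-- the numerical inequality -/
theorem numer {J : Type} [Fintype J] [DecidableEq J] (cls : J → Fin 4) (c : Fin 3) (μ : J → ℝ)
    (τ : Bool) (a b r n n1 n2 : ℕ) (hμ : ∀ j, 0 < μ j ∧ μ j ≤ 1)
    (hcase : (τ = false ∧ a = 0 ∧ b = r) ∨ (τ = true ∧ a = r ∧ b = 0) ∨
      (τ = true ∧ a = 0 ∧ b = r ∧ 1 ≤ r ∧
        2 ^ r * ∑ j ∈ univ.filter (fun j => cls j = c.castSucc), μ j ≤
          ((univ.filter (fun j => cls j ≠ c.castSucc ∧ cls j ≠ 3)).card : ℝ) +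
            ∑ j ∈ univ.filter (fun j => cls j = 3), (1 - μ j)))
    (hn : n ≤ 2 ^ r) (h1n : n1 ≤ n) (h2n : n2 ≤ n) (hf : τ = false → n1 = 1)
    (ht : τ = true → n2 = 1)
    (hex : n < 2 ^ r → ∃ j, (τ = false → cls j ≠ c.castSucc) ∧
      (τ = true → cls j = c.castSucc ∨ cls j = 3)) :
    ∑ j, pj cls c μ a b n n1 n2 j ≤ Fintype.card J ∧
      (n < 2 ^ r → ∑ j, pj cls c μ a b n n1 n2 j < Fintype.card J) := by
  have hJ : (Fintype.card J : ℝ) = ∑ _j : J, (1 : ℝ) := by
    rw [sum_const, card_univ, nsmul_eq_mul, mul_one]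
  have h2r : (0 : ℝ) < 2 ^ r := by positivity
  have hn' : (n : ℝ) ≤ 2 ^ r := by exact_mod_cast hn
  have h1n' : (n1 : ℝ) ≤ n := by exact_mod_cast h1n
  have h2n' : (n2 : ℝ) ≤ n := by exact_mod_cast h2n
  have hne3 : (c.castSucc : Fin 4) ≠ 3 := castSucc_ne3 c
  -- a general scheme
  have scheme : ∀ β : J → ℝ, (∀ j, pj cls c μ a b n n1 n2 j ≤ β j) → ∑ j, β j ≤ Fintype.card J →
      (n < 2 ^ r → ∀ j, (τ = false → cls j ≠ c.castSucc) →
        (τ = true → cls j = c.castSucc ∨ cls j = 3) → pj cls c μ a b n n1 n2 j < β j) →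
      ∑ j, pj cls c μ a b n n1 n2 j ≤ Fintype.card J ∧
      (n < 2 ^ r → ∑ j, pj cls c μ a b n n1 n2 j < Fintype.card J) := by
    intro β hβ hsum hlt
    refine ⟨(sum_le_sum fun j _ => hβ j).trans hsum, fun h => ?_⟩
    obtain ⟨j, hj1, hj2⟩ := hex h
    exact lt_of_lt_of_le (sum_lt_sum (fun j _ => hβ j) ⟨j, mem_univ _, hlt h j hj1 hj2⟩) hsum
  rcases hcase with ⟨rfl, rfl, rfl⟩ | ⟨rfl, rfl, rfl⟩ | ⟨rfl, rfl, rfl, hr, hG⟩
  · -- case 1
    have h1 : n1 = 1 := hf rfl
    subst h1
    apply scheme (fun _ => 1)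
    · intro j
      obtain ⟨hμ0, hμ1⟩ := hμ j
      unfold pj
      split_ifs with h1 h2
      · simp
      · rw [mul_one_div, div_le_one h2r, pow_zero, div_one]
        nlinarith
      · rw [mul_one_div, div_le_one h2r]
        linarith
    · rw [hJ]
    · intro hlt j hj _
      have hlt' : (n : ℝ) < 2 ^ b := by exact_mod_cast hlt
      obtain ⟨hμ0, hμ1⟩ := hμ j
      unfold pj
      rw [if_neg (hj rfl)]
      split_ifs with h2
      · rw [mul_one_div, div_lt_one h2r, pow_zero, div_one]
        nlinarith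
      · rw [mul_one_div, div_lt_one h2r]
        linarith
  · -- case 2
    have h1 : n2 = 1 := ht rfl
    subst h1
    have e0 : ∀ j, ∀ m : ℝ, m ≤ 2 ^ a → m * (μ j / 2 ^ a) ≤ μ j := by
      intro j m hm
      obtain ⟨hμ0, hμ1⟩ := hμ j
      rw [mul_div_assoc', div_le_iff₀ h2r]
      nlinarith
    have e1 : ∀ j, ∀ m : ℝ, m < 2 ^ a → m * (μ j / 2 ^ a) < μ j := by
      intro j m hm
      obtain ⟨hμ0, hμ1⟩ := hμ j
      rw [mul_div_assoc', div_lt_iff₀ h2r]
      nlinarith
    apply scheme (fun _ => 1)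
    · intro j
      unfold pj
      split_ifs with h1 h2
      · have := e0 j n1 (h1n'.trans hn')
        linarith
      · have := e0 j n hn'
        simp only [pow_zero, Nat.cast_one, div_one, mul_one, one_mul]
        linarith
      · simp
    · rw [hJ]
    · intro hlt j _ hj
      have hlt' : (n : ℝ) < 2 ^ a := by exact_mod_cast hlt
      unfold pj
      split_ifs with h1 h2
      · have := e1 j n1 (lt_of_le_of_lt h1n' hlt')
        linarith
      · have := e1 j n hlt'
        simp only [pow_zero, Nat.cast_one, div_one, mul_one, one_mul]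
        linarith
      · rcases hj rfl with h | h
        · exact absurd h h1
        · exact absurd h h2
  · -- case 3
    have h1 : n2 = 1 := ht rfl
    subst h1
    have e0 : (n : ℝ) * (1 / 2 ^ b) ≤ 1 := by
      rw [mul_one_div, div_le_one h2r]; exact hn'
    apply scheme (fun j => if cls j = c.castSucc then (1 - μ j) + 2 ^ b * μ j else
      if cls j = 3 then (1 - μ j) * (1 / 2 ^ b) + μ j else 1 / 2 ^ b)
    · intro j
      obtain ⟨hμ0, hμ1⟩ := hμ j
      unfold pj
      split_ifs with h1 h2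
      · rw [pow_zero, div_one]
        have : (n1 : ℝ) * μ j ≤ 2 ^ b * μ j :=
          mul_le_mul_of_nonneg_right (h1n'.trans hn') hμ0.le
        linarith
      · rw [pow_zero, div_one, Nat.cast_one, one_mul, add_mul]
        have : (n : ℝ) * μ j * (1 / 2 ^ b) ≤ μ j := by
          calc (n : ℝ) * μ j * (1 / 2 ^ b) = (n * (1 / 2 ^ b)) * μ j := by ring
            _ ≤ 1 * μ j := mul_le_mul_of_nonneg_right e0 hμ0.le
            _ = μ j := one_mul _
        linarith
      · simp
    · have e2 : ∀ j, (if cls j = c.castSucc then (1 - μ j) + 2 ^ b * μ j else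
          if cls j = 3 then (1 - μ j) * (1 / 2 ^ b) + μ j else 1 / 2 ^ b : ℝ) = 1 +
          (1 - 1 / 2 ^ b) * ((2 ^ b * if cls j = c.castSucc then μ j else 0) -
            (if cls j ≠ c.castSucc ∧ cls j ≠ 3 then 1 else 0) -
            (if cls j = 3 then 1 - μ j else 0)) := by
        intro j
        by_cases h1 : cls j = c.castSucc
        · have h2 : cls j ≠ 3 := by rw [h1]; exact hne3
          simp only [h1, if_true, hne3, if_false, ne_eq, not_true_eq_false, false_and]
          field_simp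
          ring
        · by_cases h2 : cls j = 3
          · simp only [h2, hne3.symm, if_false, if_true, ne_eq, not_true_eq_false, and_false]
            ring
          · simp only [h1, h2, if_false, ne_eq, not_false_eq_true, and_self, if_true]
            ring
      simp only [e2]
      rw [sum_add_distrib, ← hJ, ← mul_sum, sum_sub_distrib, sum_sub_distrib, ← mul_sum,
        ← sum_filter, ← sum_filter, ← sum_filter, sum_const, nsmul_eq_mul, mul_one]
      have e3 : (0 : ℝ) ≤ 1 - 1 / 2 ^ b := by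
        have : (1 : ℝ) / 2 ^ b ≤ 1 := by
          rw [div_le_one h2r]
          exact one_le_pow₀ (by norm_num)
        linarith
      have e4 : (1 - 1 / 2 ^ b : ℝ) * (2 ^ b * ∑ j ∈ univ.filter (fun j => cls j = c.castSucc), μ j -
          ((univ.filter (fun j => cls j ≠ c.castSucc ∧ cls j ≠ 3)).card : ℝ) -
            ∑ j ∈ univ.filter (fun j => cls j = 3), (1 - μ j)) ≤ 0 :=
        mul_nonpos_of_nonneg_of_nonpos e3 (by linarith)
      linarith
    · intro hlt j _ hj
      have hlt' : (n : ℝ) < 2 ^ b := by exact_mod_cast hlt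
      obtain ⟨hμ0, hμ1⟩ := hμ j
      unfold pj
      split_ifs with h1 h2
      · rw [pow_zero, div_one]
        have : (n1 : ℝ) * μ j < 2 ^ b * μ j :=
          mul_lt_mul_of_pos_right (lt_of_le_of_lt h1n' hlt') hμ0
        linarith
      · rw [pow_zero, div_one, Nat.cast_one, one_mul, add_mul]
        have e5 : (n : ℝ) * (1 / 2 ^ b) < 1 := by
          rw [mul_one_div, div_lt_one h2r]; exact hlt'
        have : (n : ℝ) * μ j * (1 / 2 ^ b) < μ j := by
          calc (n : ℝ) * μ j * (1 / 2 ^ b) = (n * (1 / 2 ^ b)) * μ j := by ring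
            _ < 1 * μ j := mul_lt_mul_of_pos_right e5 hμ0
            _ = μ j := one_mul _
        linarith
      · rcases hj rfl with h | h
        · exact absurd h h1
        · exact absurd h h2

theorem s_CFD : S_CFD := by
  classical
  intro J _ _ cls c μ τ a b r hμ hcase U S hUS hU hQ
  set W := UL (LF cls c r) U S with hW
  have hWm : ∀ e, e ∈ W ↔ e ∈ U ∧ ∀ l ∈ S, LF cls c r e l = LF cls c r l e := fun e => by
    rw [hW]
    unfold UL
    simp only [mem_filter]
  have hWU : ∀ e ∈ W, e ∈ U := fun e he => ((hWm e).1 he).1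
  have hWH : ∀ e ∈ W, ∀ s ∈ U ∪ S, GG r e.1.2.1 s.1.2.1 = 0 := by
    intro e he s hs
    rw [← LF_symm']
    rcases mem_union.1 hs with h | h
    · exact hU e (hWU e he) s h
    · exact ((hWm e).1 he).2 s h
  set D : Submodule (ZMod 2) (MF r) :=
    Submodule.span (ZMod 2) {t | ∃ e ∈ W, e.1.2.1 = t} with hD
  have hWD : ∀ e ∈ W, e.1.2.1 ∈ D := fun e he => Submodule.subset_span ⟨e, he, rfl⟩
  have hDH : ∀ t ∈ D, ∀ s ∈ U ∪ S, GG r t s.1.2.1 = 0 := by
    intro t ht s hs
    have h1 : D ≤ LinearMap.ker (GG r s.1.2.1) := by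
      rw [hD, Submodule.span_le]
      rintro t ⟨e, he, rfl⟩
      show GG r s.1.2.1 e.1.2.1 = 0
      rw [GG_symm]
      exact hWH e he s hs
    have h2 : GG r s.1.2.1 t = 0 := h1 ht
    rw [GG_symm]
    exact h2
  have hDD : ∀ t ∈ D, ∀ t' ∈ D, GG r t t' = 0 := by
    intro t ht t' ht'
    have h1 : D ≤ LinearMap.ker (GG r t) := by
      rw [hD, Submodule.span_le]
      rintro t' ⟨e, he, rfl⟩
      exact hDH t ht e (mem_union_left _ (hWU e he))
    exact h1 ht'
  obtain ⟨hiso1, hiso2⟩ := iso (GG r) GG_symm GG_nd r (finrank_MF r) D hDD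
  set Df : Finset (MF r) := univ.filter (fun t => t ∈ D) with hDf
  have hDfm : ∀ t, t ∈ Df ↔ t ∈ D := fun t => by rw [hDf]; simp
  have hDfc : Df.card = Nat.card D := by
    rw [hDf, ← Fintype.card_subtype, Nat.card_eq_fintype_card]
  set n := Df.card with hn
  set n1 := (Df.filter (fun t => t.2 = 0)).card with hn1
  set n2 := (Df.filter (fun t => t.1 = 0)).card with hn2
  have hnr : n ≤ 2 ^ r := by rw [hDfc]; exact hiso1
  have h0D : (0 : MF r) ∈ Df := (hDfm 0).2 D.zero_mem
  have hf : τ = false → n1 = 1 := by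
    intro hτ
    rw [hn1, card_eq_one]
    refine ⟨0, ?_⟩
    ext t
    rw [mem_filter, mem_singleton, hDfm]
    constructor
    · rintro ⟨ht, ht2⟩
      refine Prod.ext ?_ ht2
      by_contra hne
      obtain ⟨i, hi, h1⟩ := hQ t.1 hne
      have h2 := hDH t ht i hi
      rw [GG_apply, ht2, zero_dotProduct, add_zero] at h2
      rw [hτ] at h1
      exact h1 h2
    · rintro rfl
      exact ⟨D.zero_mem, rfl⟩
  have ht : τ = true → n2 = 1 := by
    intro hτ
    rw [hn2, card_eq_one]
    refine ⟨0, ?_⟩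
    ext t
    rw [mem_filter, mem_singleton, hDfm]
    constructor
    · rintro ⟨ht, ht1⟩
      refine Prod.ext ht1 ?_
      by_contra hne
      obtain ⟨i, hi, h1⟩ := hQ t.2 hne
      have h2 := hDH t ht i hi
      rw [GG_apply, ht1, zero_dotProduct, zero_add] at h2
      rw [hτ] at h1
      exact h1 h2
    · rintro rfl
      exact ⟨D.zero_mem, rfl⟩
  have hex : n < 2 ^ r → ∃ j, (τ = false → cls j ≠ c.castSucc) ∧
      (τ = true → cls j = c.castSucc ∨ cls j = 3) := by
    intro hlt
    have hpos : 1 ≤ n := card_pos.2 ⟨0, h0D⟩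
    have hr : r ≠ 0 := by
      rintro rfl
      rw [pow_zero] at hlt
      omega
    have hy : (fun _ : Fin r => (1 : ZMod 2)) ≠ 0 := by
      intro h
      have h1 := congrFun h ⟨0, Nat.pos_of_ne_zero hr⟩
      exact one_ne_zero h1
    obtain ⟨i, hi, hi0⟩ := hQ _ hy
    refine ⟨i.1.1, fun hτ h => ?_, fun hτ => ?_⟩
    · rw [hτ] at hi0
      apply hi0
      have h1 : i.1.2.1.2 = 0 := i.2.1 h
      rw [if_neg (by decide), h1, dotProduct_zero]
    · by_contra hcon
      push Not at hcon
      rw [hτ] at hi0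
      apply hi0
      have h1 : i.1.2.1.1 = 0 := i.2.2.1 hcon.1 hcon.2
      rw [if_pos rfl, h1, dotProduct_zero]
  have hnum := numer cls c μ τ a b r n n1 n2 hμ hcase hnr (card_le_card (filter_subset _ _))
    (card_le_card (filter_subset _ _)) hf ht hex
  -- the possible labels
  set P : Finset (LabF cls c r) := univ.filter (fun i => i.1.2.1 ∈ D) with hP
  have hPm : ∀ i, i ∈ P ↔ i.1.2.1 ∈ D := fun i => by rw [hP]; simp
  have hWP : W ⊆ P := fun i hi => (hPm i).2 (hWD i hi)
  have hgpos : ∀ j (t : MF r), 0 < gg cls c μ a b r j t := by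
    intro j t
    obtain ⟨hμ0, hμ1⟩ := hμ j
    have e1 : (0 : ℝ) < μ j / 2 ^ a := by positivity
    have e2 : (0 : ℝ) < 1 / 2 ^ b := by positivity
    unfold gg
    apply div_pos _ (by norm_num)
    apply mul_pos
    · split_ifs
      · linarith
      · linarith
      · linarith
    · split_ifs
      · norm_num
      · exact e2
  have hwv : ∀ i : LabF cls c r, wv cls c a b r i (μ i.1.1) (1 - μ i.1.1) =
      gg cls c μ a b r i.1.1 i.1.2.1 := fun i => rfl
  have hne3 : (c.castSucc : Fin 4) ≠ 3 := castSucc_ne3 c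
  -- the fibres
  have hfib : ∀ j, ∑ i ∈ P.filter (fun i => i.1.1 = j), gg cls c μ a b r i.1.1 i.1.2.1 ≤
      pj cls c μ a b n n1 n2 j := by
    intro j
    set T : Finset (MF r) := Df.filter (fun t => (cls j = c.castSucc → t.2 = 0) ∧
      (cls j ≠ c.castSucc → cls j ≠ 3 → t.1 = 0)) with hT
    have e1 : ∑ i ∈ P.filter (fun i => i.1.1 = j), gg cls c μ a b r i.1.1 i.1.2.1 =
        ∑ x ∈ (P.filter (fun i => i.1.1 = j)).image (fun i => i.1.2),
          gg cls c μ a b r j x.1 := by
      rw [sum_image]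
      · refine sum_congr rfl fun i hi => ?_
        rw [(mem_filter.1 hi).2]
      · intro i hi i' hi' h
        apply Subtype.ext
        refine Prod.ext ?_ h
        rw [(mem_filter.1 (mem_coe.1 hi)).2, (mem_filter.1 (mem_coe.1 hi')).2]
    have e2 : (P.filter (fun i => i.1.1 = j)).image (fun i => i.1.2) ⊆
        T ×ˢ (univ : Finset Bool) := by
      intro x hx
      obtain ⟨i, hi, rfl⟩ := mem_image.1 hx
      obtain ⟨hiP, hij⟩ := mem_filter.1 hi
      rw [mem_product, hT, mem_filter, hDfm]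
      refine ⟨⟨(hPm i).1 hiP, ?_, ?_⟩, mem_univ _⟩
      · rw [← hij]; exact i.2.1
      · rw [← hij]; exact i.2.2.1
    have e3 : ∑ x ∈ T ×ˢ (univ : Finset Bool), gg cls c μ a b r j x.1 =
        ∑ t ∈ T, 2 * gg cls c μ a b r j t := by
      rw [sum_product]
      refine sum_congr rfl fun t _ => ?_
      show ∑ _y : Bool, gg cls c μ a b r j t = _
      rw [sum_const, card_univ, Fintype.card_bool, nsmul_eq_mul]
      norm_num
    rw [e1]
    refine (sum_le_sum_of_subset_of_nonneg e2 fun x _ _ => (hgpos j x.1).le).trans ?_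
    rw [e3]
    obtain ⟨hμ0, hμ1⟩ := hμ j
    unfold pj
    by_cases h1 : cls j = c.castSucc
    · rw [if_pos h1]
      have e4 : T = Df.filter (fun t => t.2 = 0) := by
        rw [hT]
        apply filter_congr
        intro t _
        simp [h1]
      have e5 : ∀ t ∈ T, 2 * gg cls c μ a b r j t =
          (if t = 0 then 1 - μ j else 0) + μ j / 2 ^ a := by
        intro t htT
        rw [e4, mem_filter] at htT
        have h2 : (t.1 = 0) ↔ t = 0 := ⟨fun h => Prod.ext h htT.2, fun h => by rw [h]; rfl⟩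
        unfold gg
        rw [if_pos (Or.inl h1), if_pos h1]
        simp only [h2]
        ring
      rw [sum_congr rfl e5, sum_add_distrib, sum_ite_eq', sum_const, nsmul_eq_mul, e4, ← hn1]
      have e6 : (0 : MF r) ∈ Df.filter (fun t => t.2 = 0) := by
        rw [mem_filter]; exact ⟨h0D, rfl⟩
      rw [if_pos e6]
    · rw [if_neg h1]
      by_cases h3 : cls j = 3
      · rw [if_pos h3]
        have e4 : T = Df := by
          rw [hT]
          apply filter_true_of_mem
          intro t _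
          exact ⟨fun h => absurd h h1, fun _ h => absurd h3 h⟩
        have e5 : ∀ t ∈ T, 2 * gg cls c μ a b r j t =
            ((if t.1 = 0 then 1 - μ j else 0) + μ j / 2 ^ a) * (1 / 2 ^ b) := by
          intro t htT
          unfold gg
          rw [if_pos (Or.inr h3), if_neg h1]
          ring
        rw [sum_congr rfl e5, ← sum_mul, sum_add_distrib, ← sum_filter, sum_const, sum_const,
          nsmul_eq_mul, nsmul_eq_mul, e4]
      · rw [if_neg h3]
        have e4 : T = Df.filter (fun t => t.1 = 0) := by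
          rw [hT]
          apply filter_congr
          intro t _
          simp [h1, h3]
        have e5 : ∀ t ∈ T, 2 * gg cls c μ a b r j t = 1 / 2 ^ b := by
          intro t htT
          unfold gg
          rw [if_neg (by tauto), if_neg h1]
          ring
        rw [sum_congr rfl e5, sum_const, nsmul_eq_mul, e4]
  have hPsum : ∑ i ∈ P, gg cls c μ a b r i.1.1 i.1.2.1 ≤ ∑ j, pj cls c μ a b n n1 n2 j := by
    rw [← sum_fiberwise_of_maps_to (s := P) (t := univ) (g := fun i => i.1.1)
      (fun _ _ => mem_univ _)]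
    exact sum_le_sum fun j _ => hfib j
  simp only [hwv]
  have hWsum : ∑ i ∈ W, gg cls c μ a b r i.1.1 i.1.2.1 ≤
      ∑ i ∈ P, gg cls c μ a b r i.1.1 i.1.2.1 :=
    sum_le_sum_of_subset_of_nonneg hWP fun i _ _ => (hgpos _ _).le
  refine ⟨(hWsum.trans hPsum).trans hnum.1, ?_⟩
  rintro ⟨s, hs⟩
  have hsH : s ∈ U ∪ S := mem_union_right _ hs
  have hsW : s ∉ W := fun h => disjoint_left.1 hUS (hWU s h) hs
  by_cases hlt : n < 2 ^ r
  · exact lt_of_le_of_lt (hWsum.trans hPsum) (hnum.2 hlt)
  · have h1 : s.1.2.1 ∈ D := hiso2 (by rw [← hDfc]; exact not_lt.1 hlt) _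
      fun t ht => hDH t ht s hsH
    have h2 : ∑ i ∈ W, gg cls c μ a b r i.1.1 i.1.2.1 <
        ∑ i ∈ P, gg cls c μ a b r i.1.1 i.1.2.1 :=
      sum_lt_sum_of_subset hWP ((hPm s).2 h1) hsW (hgpos _ _) fun i _ _ => (hgpos _ _).le
    exact lt_of_lt_of_le h2 (hPsum.trans hnum.1)

end Pool.Agent.L7h29.FD
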